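import Pool.Agent.H87.D3.Targets

/-! The Hessian bound in dimension three (MP_2697e3_an): annuli have small energy. -/

set_option autoImplicit false

namespace Pool.Agent.H74.D3

open MeasureTheory Metric Set Filter Topology Pool.Agent.H87.SN Pool.Agent.H87.SH
  Pool.Agent.H87.AX Pool.Agent.H87.D3
open scoped ContDiff RealInnerProductSpace ENNReal

noncomputable section

/-! ### Coordinates -/

theorem Pm_apply (y : V) : (Pm 1 y) 0 = y 0 ∧ (Pm 1 y) 1 = y 1 ∧ (Pm 1 y) 2 = 0 := by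
  refine ⟨?_, ?_, ?_⟩ <;> simp [Pm]

theorem Jm_apply (y : V) : (Jm 1 y) 0 = - y 1 ∧ (Jm 1 y) 1 = y 0 ∧ (Jm 1 y) 2 = 0 := by
  refine ⟨?_, ?_, ?_⟩ <;> simp [Jm]

theorem bv_apply : (bv 2 : V) 0 = 0 ∧ (bv 2 : V) 1 = 0 ∧ (bv 2 : V) 2 = 1 := by
  refine ⟨?_, ?_, ?_⟩ <;> simp [bv]

theorem norm_sq_V (y : V) : ‖y‖ ^ 2 = y 0 ^ 2 + y 1 ^ 2 + y 2 ^ 2 := by
  rw [EuclideanSpace.norm_sq_eq]
  simp [Fin.sum_univ_three, sq_abs]

theorem rho_sq (y : V) : rho y ^ 2 = y 0 ^ 2 + y 1 ^ 2 := by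
  unfold rho
  exact Real.sq_sqrt (by positivity)

theorem rho_nonneg (y : V) : 0 ≤ rho y := Real.sqrt_nonneg _

theorem norm_Pm (y : V) : ‖Pm 1 y‖ = rho y := by
  obtain ⟨h0, h1, h2⟩ := Pm_apply y
  have h : ‖Pm 1 y‖ ^ 2 = rho y ^ 2 := by
    rw [norm_sq_V, rho_sq, h0, h1, h2]; ring
  exact (pow_left_inj₀ (norm_nonneg _) (rho_nonneg _) two_ne_zero).1 h

theorem rho_le_norm (y : V) : rho y ≤ ‖y‖ := by
  have h1 := rho_sq y
  have h2 := norm_sq_V y
  refine le_of_sq_le_sq ?_ (norm_nonneg _)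
  nlinarith [sq_nonneg (y 2)]

theorem rho_lip (x y : V) : |rho y - rho x| ≤ ‖y - x‖ := by
  rw [← norm_Pm, ← norm_Pm]
  refine (abs_norm_sub_norm_le _ _).trans ?_
  rw [← map_sub, norm_Pm]
  exact rho_le_norm _

theorem abs_z_le (y : V) : |y 2| ≤ ‖y‖ := by
  have h2 := norm_sq_V y
  refine le_of_sq_le_sq ?_ (norm_nonneg _)
  rw [sq_abs]
  nlinarith [sq_nonneg (y 0), sq_nonneg (y 1)]

theorem nzs_one {m : ℕ} (L : V →L[ℝ] E m) : nzs L = ‖L (bv 2)‖ ^ 2 := by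
  unfold nzs
  simp

/-! ### The cutoff -/

theorem prof {η : ℝ → ℝ} {M ρ : ℝ} (hρ : 0 < ρ) (hM : 2 ≤ M) (hη : ContDiff ℝ 1 η)
    (h0 : ∀ s, s ≤ 1 / M → η s = 0) :
    ContDiff ℝ 1 (fun q : ℝ => η (√q / ρ)) ∧ ∀ q, 0 ≤ q →
      2 * q * deriv (fun q : ℝ => η (√q / ρ)) q = √q / ρ * deriv η (√q / ρ) := by
  have hM0 : 0 < M := by linarith
  constructor
  · refine contDiff_iff_contDiffAt.2 fun q => ?_
    by_cases hq : q < (ρ / M) ^ 2
    · have h1 : (fun q : ℝ => η (√q / ρ)) =ᶠ[𝓝 q] fun _ => 0 := by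
        filter_upwards [Iio_mem_nhds hq] with q' hq'
        apply h0
        rw [div_le_div_iff₀ hρ hM0]
        have h2 : √q' ≤ ρ / M := by
          rw [Real.sqrt_le_left (by positivity)]
          exact (mem_Iio.1 hq').le
        rw [le_div_iff₀ hM0] at h2
        linarith
      exact contDiffAt_const.congr_of_eventuallyEq h1
    · have hq0 : 0 < q := lt_of_lt_of_le (by positivity) (not_lt.1 hq)
      exact (hη.contDiffAt).comp q ((Real.contDiffAt_sqrt hq0.ne').div_const ρ)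
  · intro q hq
    rcases hq.eq_or_lt with h | h
    · rw [← h]; simp
    · have h1 : HasDerivAt (fun q : ℝ => √q / ρ) (1 / (2 * √q) / ρ) q :=
        (Real.hasDerivAt_sqrt h.ne').div_const ρ
      have h2 : HasDerivAt η (deriv η (√q / ρ)) (√q / ρ) :=
        ((hη.differentiable one_ne_zero) _).hasDerivAt
      have h3 : HasDerivAt (fun q : ℝ => η (√q / ρ))
          (deriv η (√q / ρ) * (1 / (2 * √q) / ρ)) q := HasDerivAt.comp q h2 h1
      rw [h3.deriv]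
      have h4 : 0 < √q := Real.sqrt_pos.2 h
      field_simp
      rw [Real.sq_sqrt hq]

/-- the cutoff function -/
def cf (ψ η : ℝ → ℝ) (c ρ : ℝ) (y : V) : ℝ := ψ ((y 2 - c) / ρ) * η (rho y / ρ)

theorem cf_facts {ψ η : ℝ → ℝ} {M ρ c : ℝ} (hρ : 0 < ρ) (hM : 2 ≤ M) (hψ : ContDiff ℝ 1 ψ)
    (hη : ContDiff ℝ 1 η) (h0 : ∀ s, s ≤ 1 / M → η s = 0) :
    ContDiff ℝ 1 (cf ψ η c ρ) ∧ ∀ y : V, fderiv ℝ (cf ψ η c ρ) y (Jm 1 y) = 0 ∧
      kap (cf ψ η c ρ) y =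
        -(ψ ((y 2 - c) / ρ) * (rho y / ρ * deriv η (rho y / ρ))) ∧
      fderiv ℝ (cf ψ η c ρ) y (bv 2) =
        deriv ψ ((y 2 - c) / ρ) / ρ * η (rho y / ρ) := by
  obtain ⟨hg, hg2⟩ := prof hρ hM hη h0
  set g : ℝ → ℝ := fun q : ℝ => η (√q / ρ) with hgd
  have hcf : cf ψ η c ρ = fun y : V => ψ ((y 2 - c) / ρ) * g (y 0 ^ 2 + y 1 ^ 2) := by
    funext y; rfl
  have p : ∀ i : Fin 3, ContDiff ℝ 1 (fun y : V => y i) := fun i =>
    (EuclideanSpace.proj (𝕜 := ℝ) i).contDiff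
  constructor
  · rw [hcf]
    exact (hψ.comp (((p 2).sub contDiff_const).div_const ρ)).mul
      (hg.comp (((p 0).pow 2).add ((p 1).pow 2)))
  · intro y
    have a : ∀ i : Fin 3, HasFDerivAt (fun y : V => y i)
        (EuclideanSpace.proj (𝕜 := ℝ) i : V →L[ℝ] ℝ) y := fun i =>
      (EuclideanSpace.proj (𝕜 := ℝ) i : V →L[ℝ] ℝ).hasFDerivAt
    have h1 : HasFDerivAt (fun y : V => ψ ((y 2 - c) / ρ))
        (deriv ψ ((y 2 - c) / ρ) • (ρ⁻¹ • (EuclideanSpace.proj (𝕜 := ℝ) 2 : V →L[ℝ] ℝ))) y := by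
      have h2 : HasFDerivAt (fun y : V => (y 2 - c) / ρ)
          (ρ⁻¹ • (EuclideanSpace.proj (𝕜 := ℝ) 2 : V →L[ℝ] ℝ)) y := by
        have h3 := ((a 2).sub_const c).const_mul ρ⁻¹
        refine h3.congr_of_eventuallyEq (Eventually.of_forall fun z => ?_)
        simp only []
        rw [div_eq_inv_mul]
      exact HasDerivAt.comp_hasFDerivAt y
        (((hψ.differentiable one_ne_zero) _).hasDerivAt) h2
    have h4 : HasFDerivAt (fun y : V => g (y 0 ^ 2 + y 1 ^ 2))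
        (deriv g (y 0 ^ 2 + y 1 ^ 2) • ((2 * y 0) • (EuclideanSpace.proj (𝕜 := ℝ) 0 : V →L[ℝ] ℝ) +
          (2 * y 1) • (EuclideanSpace.proj (𝕜 := ℝ) 1 : V →L[ℝ] ℝ))) y := by
      have h5 : HasFDerivAt (fun y : V => y 0 ^ 2 + y 1 ^ 2)
          ((2 * y 0) • (EuclideanSpace.proj (𝕜 := ℝ) 0 : V →L[ℝ] ℝ) +
          (2 * y 1) • (EuclideanSpace.proj (𝕜 := ℝ) 1 : V →L[ℝ] ℝ)) y := by
        have h6 : HasFDerivAt (fun y : V => y 0 ^ 2 + y 1 ^ 2) _ y :=
          ((a 0).pow 2).add ((a 1).pow 2)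
        refine h6.congr_fderiv ?_
        ext v
        simp
      exact HasDerivAt.comp_hasFDerivAt (h₂ := g) y
        (((hg.differentiable one_ne_zero) _).hasDerivAt) h5
    have h7 : HasFDerivAt (fun y : V => ψ ((y 2 - c) / ρ) * g (y 0 ^ 2 + y 1 ^ 2)) _ y :=
      h1.mul h4
    have h8 : ∀ v : V, fderiv ℝ (cf ψ η c ρ) y v =
        ψ ((y 2 - c) / ρ) * (deriv g (y 0 ^ 2 + y 1 ^ 2) * (2 * y 0 * v 0 + 2 * y 1 * v 1)) +
        g (y 0 ^ 2 + y 1 ^ 2) * (deriv ψ ((y 2 - c) / ρ) * (ρ⁻¹ * v 2)) := by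
      intro v
      rw [hcf, h7.fderiv]
      simp
      ring
    obtain ⟨P0, P1, P2⟩ := Pm_apply y
    obtain ⟨J0, J1, J2⟩ := Jm_apply y
    obtain ⟨B0, B1, B2⟩ := bv_apply
    have hq := hg2 (y 0 ^ 2 + y 1 ^ 2) (by positivity)
    have hr : √(y 0 ^ 2 + y 1 ^ 2) = rho y := rfl
    rw [hr] at hq
    refine ⟨?_, ?_, ?_⟩
    · rw [h8, J0, J1, J2]; ring
    · unfold kap
      rw [h8, P0, P1, P2, ← hq]; ring
    · rw [h8, B0, B1, B2]
      have : g (y 0 ^ 2 + y 1 ^ 2) = η (rho y / ρ) := rfl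
      rw [this]
      field_simp
      ring

/-! ### Geometry -/

theorem geo1 {x y : V} (hx : x ∈ ball (0 : V) (5 / 8)) (h1 : rho y ≤ 5 / 4 * rho x)
    (h2 : |y 2 - x 2| ≤ 3 / 16 * rho x) : y ∈ ball (0 : V) (7 / 8) := by
  rw [mem_ball_zero_iff] at hx ⊢
  have n1 := norm_sq_V x
  have n2 := norm_sq_V y
  have r1 := rho_sq x
  have r2 := rho_sq y
  have r0 := rho_nonneg x
  have r0' := rho_nonneg y
  have a0 : 0 ≤ |x 2| := abs_nonneg _
  have a1 : |x 2| ^ 2 = x 2 ^ 2 := sq_abs _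
  have a2 : |y 2| ≤ |x 2| + 3 / 16 * rho x := by
    have : |y 2| ≤ |y 2 - x 2| + |x 2| := by
      have := abs_add_le (y 2 - x 2) (x 2)
      rwa [sub_add_cancel] at this
    linarith
  have a3 : y 2 ^ 2 ≤ (|x 2| + 3 / 16 * rho x) ^ 2 := by
    rw [← sq_abs (y 2)]
    exact pow_le_pow_left₀ (abs_nonneg _) a2 2
  have a4 : rho y ^ 2 ≤ (5 / 4 * rho x) ^ 2 := pow_le_pow_left₀ r0' h1 2
  have a5 : ‖x‖ ^ 2 < (5 / 8) ^ 2 := pow_lt_pow_left₀ hx (norm_nonneg _) two_ne_zero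
  have a6 : ‖y‖ ^ 2 < (7 / 8) ^ 2 := by
    nlinarith [sq_nonneg (rho x - |x 2|), sq_nonneg (rho x), sq_nonneg (x 2)]
  exact lt_of_pow_lt_pow_left₀ 2 (by norm_num) a6

theorem geo2 {x y : V} (h1 : rho y ≤ 5 / 4 * rho x) (h0 : 0 < rho x)
    (h2 : |y 2 - x 2| ≤ 3 / 16 * rho x) : y ∈ ball (x - Pm 1 x) (2 * rho x) := by
  rw [mem_ball_iff_norm]
  obtain ⟨P0, P1, P2⟩ := Pm_apply x
  have n2 := norm_sq_V (y - (x - Pm 1 x))
  simp only [PiLp.sub_apply, P0, P1, P2] at n2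
  have r2 := rho_sq y
  have a4 : rho y ^ 2 ≤ (5 / 4 * rho x) ^ 2 := pow_le_pow_left₀ (rho_nonneg y) h1 2
  have a3 : (y 2 - x 2) ^ 2 ≤ (3 / 16 * rho x) ^ 2 := by
    rw [← sq_abs (y 2 - x 2)]
    exact pow_le_pow_left₀ (abs_nonneg _) h2 2
  have a6 : ‖y - (x - Pm 1 x)‖ ^ 2 < (2 * rho x) ^ 2 := by
    have : 0 < rho x ^ 2 := by positivity
    nlinarith
  exact lt_of_pow_lt_pow_left₀ 2 (by positivity) a6

theorem geo3 {x : V} (hx : x ∈ ball (0 : V) (5 / 8)) :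
    ball (x - Pm 1 x) (2 * rho x) ⊆ ball 0 2 := by
  intro y hy
  rw [mem_ball_zero_iff] at hx ⊢
  rw [mem_ball_iff_norm] at hy
  obtain ⟨P0, P1, P2⟩ := Pm_apply x
  have n2 := norm_sq_V (x - Pm 1 x)
  simp only [PiLp.sub_apply, P0, P1, P2] at n2
  have n1 : ‖x - Pm 1 x‖ ≤ ‖x‖ := by
    refine le_of_sq_le_sq ?_ (norm_nonneg _)
    rw [n2, norm_sq_V]
    nlinarith [sq_nonneg (x 0), sq_nonneg (x 1)]
  have n3 := rho_le_norm x
  have n4 : ‖y‖ ≤ ‖y - (x - Pm 1 x)‖ + ‖x - Pm 1 x‖ := by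
    have := norm_add_le (y - (x - Pm 1 x)) (x - Pm 1 x)
    rwa [sub_add_cancel] at this
  linarith

theorem geo4 {x y : V} (hy : y ∈ ball x (rho x / 8)) :
    7 / 8 * rho x ≤ rho y ∧ rho y ≤ 9 / 8 * rho x ∧ |y 2 - x 2| ≤ 1 / 8 * rho x := by
  rw [mem_ball_iff_norm] at hy
  have h1 := rho_lip x y
  have h2 := abs_le.1 h1
  have h3 := abs_z_le (y - x)
  simp only [PiLp.sub_apply] at h3
  refine ⟨by linarith, by linarith, by linarith⟩

/-! ### The pointwise inequality -/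

theorem ptw {ρ r f k fz z p j b ns c δ C K M : ℝ} (hρ : 0 < ρ) (hρ1 : ρ ≤ 1)
    (hM : 2 ≤ M) (hr : ρ / M < r) (hC : 0 ≤ C) (hK : 0 ≤ K) (hf : f ≤ C) (hk1 : -δ ≤ k)
    (hk2 : k ≤ C) (hc : c = 0 ∨ (c = 1 ∧ 1 ≤ k)) (hfz : |fz| ≤ C * K / ρ) (hz : 0 ≤ z)
    (hp : 0 ≤ p) (hj : 0 ≤ j) (hb : 2 * |b| ≤ z + p)
    (hn : ns = z + (r ^ 2)⁻¹ * p + (r ^ 2)⁻¹ * j) (hδ : 0 ≤ δ) :
    c * ns ≤ (2 * C + C * M ^ 2 + C * K + M ^ 2) / ρ ^ 2 * (z + p) + δ * ns -
      ((2 * f - k) * z + k * ((r ^ 2)⁻¹ * p) - k * ((r ^ 2)⁻¹ * j) - 2 * fz * b) := by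
  have hM0 : 0 < M := by linarith
  have hr0 : 0 < r := lt_trans (by positivity) hr
  set q : ℝ := (r ^ 2)⁻¹ with hq
  have hq0 : 0 ≤ q := by positivity
  have hq1 : q ≤ M ^ 2 / ρ ^ 2 := by
    rw [hq, inv_eq_one_div, div_le_div_iff₀ (by positivity) (by positivity)]
    have h1 : ρ < r * M := by rwa [div_lt_iff₀ hM0] at hr
    have h2 : ρ ^ 2 ≤ (r * M) ^ 2 := pow_le_pow_left₀ hρ.le h1.le 2
    nlinarith
  have hρ2 : 1 ≤ 1 / ρ ^ 2 := by
    rw [le_div_iff₀ (by positivity)]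
    nlinarith
  have hρ3 : 1 / ρ ≤ 1 / ρ ^ 2 := by
    apply one_div_le_one_div_of_le (by positivity)
    nlinarith
  have e0 : 2 * fz * b ≥ - (C * K / ρ ^ 2 * (z + p)) := by
    have h1 : |2 * fz * b| ≤ C * K / ρ ^ 2 * (z + p) := by
      rw [abs_mul, abs_mul, abs_of_pos (by norm_num : (0 : ℝ) < 2)]
      calc 2 * |fz| * |b| = |fz| * (2 * |b|) := by ring
        _ ≤ (C * K / ρ) * (z + p) := mul_le_mul hfz hb (by positivity) (by positivity)
        _ = C * K * (1 / ρ) * (z + p) := by ring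
        _ ≤ C * K * (1 / ρ ^ 2) * (z + p) := by gcongr
        _ = _ := by ring
    have := (abs_le.1 h1).1
    linarith
  have e1 : 2 * f * z ≤ 2 * C / ρ ^ 2 * (z + p) := by
    calc 2 * f * z ≤ 2 * C * z := by gcongr
      _ ≤ 2 * C * (z + p) := by gcongr; linarith
      _ = 2 * C * 1 * (z + p) := by ring
      _ ≤ 2 * C * (1 / ρ ^ 2) * (z + p) := by gcongr
      _ = _ := by ring
  have e2 : q * p ≤ M ^ 2 / ρ ^ 2 * (z + p) := by
    calc q * p ≤ M ^ 2 / ρ ^ 2 * p := by gcongr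
      _ ≤ _ := by gcongr; linarith
  have e3 : k * (q * p) ≤ C * M ^ 2 / ρ ^ 2 * (z + p) := by
    calc k * (q * p) ≤ C * (q * p) := by gcongr
      _ ≤ C * (M ^ 2 / ρ ^ 2 * (z + p)) := by gcongr
      _ = _ := by ring
  have e4 : (2 * C + C * M ^ 2 + C * K + M ^ 2) / ρ ^ 2 * (z + p) =
      2 * C / ρ ^ 2 * (z + p) + C * M ^ 2 / ρ ^ 2 * (z + p) + C * K / ρ ^ 2 * (z + p) +
      M ^ 2 / ρ ^ 2 * (z + p) := by ring
  have e5 : 0 ≤ M ^ 2 / ρ ^ 2 * (z + p) := by positivity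
  have e6 : 0 ≤ q * p := by positivity
  have e7 : 0 ≤ q * j := by positivity
  rw [hn, e4]
  rcases hc with rfl | ⟨rfl, hk3⟩
  · have f1 : -δ * z ≤ k * z := by gcongr
    have f2 : -δ * (q * j) ≤ k * (q * j) := by gcongr
    have f3 : 0 ≤ δ * (q * p) := by positivity
    linarith
  · have f1 : 1 * z ≤ k * z := by gcongr
    have f2 : 1 * (q * j) ≤ k * (q * j) := by gcongr
    have f3 : 0 ≤ δ * (z + q * p + q * j) := by positivity
    linarith

/-! ### Measurability and integrability -/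

theorem nsq_nn {m : ℕ} (T : V →L[ℝ] E m) : 0 ≤ nsq T := Finset.sum_nonneg fun _ _ => sq_nonneg _

theorem nzs_nn {m : ℕ} (T : V →L[ℝ] E m) : 0 ≤ nzs T := Finset.sum_nonneg fun _ _ => sq_nonneg _

theorem nzs_le {m : ℕ} (T : V →L[ℝ] E m) : nzs T ≤ nsq T := by
  rw [nzs_one]
  exact Finset.single_le_sum (f := fun i : Fin 3 => ‖T (bv i)‖ ^ 2) (fun _ _ => sq_nonneg _)
    (Finset.mem_univ 2)

theorem split_le {m : ℕ} (hLA1 : T_LA1) (T : V →L[ℝ] E m) (x : V) :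
    (rho x ^ 2)⁻¹ * ‖T (Pm 1 x)‖ ^ 2 ≤ nsq T ∧ (rho x ^ 2)⁻¹ * ‖T (Jm 1 x)‖ ^ 2 ≤ nsq T := by
  rcases (rho_nonneg x).eq_or_lt with h | h
  · rw [← h]
    simp [nsq_nn]
  · have h1 := hLA1 1 m T x
    have h2 : 0 < rho x ^ 2 := by positivity
    have h3 : 0 ≤ ‖T (Pm 1 x)‖ ^ 2 := by positivity
    have h4 : 0 ≤ ‖T (Jm 1 x)‖ ^ 2 := by positivity
    have h5 : 0 ≤ rho x ^ 2 * nzs T := mul_nonneg h2.le (nzs_nn T)
    constructor
    · rw [inv_mul_le_iff₀ h2, h1]; linarith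
    · rw [inv_mul_le_iff₀ h2, h1]; linarith

theorem cont_rho : Continuous (fun x : V => rho x) := by
  unfold rho
  have h0 : Continuous (fun x : V => x 0) :=
    (EuclideanSpace.proj (𝕜 := ℝ) (0 : Fin 3)).continuous
  have h1 : Continuous (fun x : V => x 1) :=
    (EuclideanSpace.proj (𝕜 := ℝ) (1 : Fin 3)).continuous
  exact ((h0.pow 2).add (h1.pow 2)).sqrt

/-- measurability of expressions in `G` -/
theorem app_meas {m : ℕ} {G : V → V →L[ℝ] E m} {μ : Measure V}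
    (hG : AEStronglyMeasurable G μ) {F : (V →L[ℝ] E m) × V → ℝ} (hF : Continuous F) :
    AEStronglyMeasurable (fun x => F (G x, x)) μ :=
  Continuous.comp_aestronglyMeasurable (f := fun x => (G x, x)) hF
    (hG.prodMk aestronglyMeasurable_id)

theorem c_nzs {m : ℕ} : Continuous (fun p : (V →L[ℝ] E m) × V => nzs p.1) := by
  unfold nzs
  refine continuous_finsetSum _ fun i _ => ?_
  exact ((continuous_fst.clm_apply continuous_const).norm).pow 2

theorem c_P {m : ℕ} : Continuous (fun p : (V →L[ℝ] E m) × V => ‖p.1 (Pm 1 p.2)‖ ^ 2) :=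
  ((continuous_fst.clm_apply ((Pm 1).continuous.comp continuous_snd)).norm).pow 2

theorem c_J {m : ℕ} : Continuous (fun p : (V →L[ℝ] E m) × V => ‖p.1 (Jm 1 p.2)‖ ^ 2) :=
  ((continuous_fst.clm_apply ((Jm 1).continuous.comp continuous_snd)).norm).pow 2

theorem c_b {m : ℕ} :
    Continuous (fun p : (V →L[ℝ] E m) × V => ⟪p.1 (bv 2), p.1 (Pm 1 p.2)⟫) :=
  (continuous_fst.clm_apply continuous_const).inner
    (continuous_fst.clm_apply ((Pm 1).continuous.comp continuous_snd))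

theorem int_of_le {m : ℕ} {G : V → V →L[ℝ] E m}
    (hG : Integrable (fun x => nsq (G x)) (volume.restrict (ball (0 : V) 2))) (f : V → ℝ)
    (K : ℝ) (hf : AEStronglyMeasurable f (volume.restrict (ball (0 : V) 2)))
    (hK : ∀ x ∈ ball (0 : V) 2, |f x| ≤ K * nsq (G x)) :
    Integrable f (volume.restrict (ball (0 : V) 2)) := by
  refine Integrable.mono' (hG.const_mul K) hf ?_
  rw [ae_restrict_iff' measurableSet_ball]
  exact Eventually.of_forall fun x hx => by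
    rw [Real.norm_eq_abs]
    exact hK x hx

theorem two_b_le {m : ℕ} (T : V →L[ℝ] E m) (y : V) :
    2 * |⟪T (bv 2), T (Pm 1 y)⟫| ≤ nzs T + ‖T (Pm 1 y)‖ ^ 2 := by
  have h1 : |⟪T (bv 2), T (Pm 1 y)⟫| ≤ ‖T (bv 2)‖ * ‖T (Pm 1 y)‖ := abs_real_inner_le_norm _ _
  rw [nzs_one]
  nlinarith [sq_nonneg (‖T (bv 2)‖ - ‖T (Pm 1 y)‖)]

/-- a cutoff on the line -/
theorem exists_psi : ∃ (ψ : ℝ → ℝ) (K : ℝ), 0 ≤ K ∧ ContDiff ℝ 1 ψ ∧
    (∀ t, 0 ≤ ψ t ∧ ψ t ≤ 1) ∧ (∀ t, |t| ≤ 1 / 8 → ψ t = 1) ∧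
    (∀ t, 3 / 16 ≤ |t| → ψ t = 0) ∧ ∀ t, |deriv ψ t| ≤ K := by
  let ψ : ContDiffBump (0 : ℝ) := ⟨1 / 8, 3 / 16, by norm_num, by norm_num⟩
  have h1 : ContDiff ℝ 1 (ψ : ℝ → ℝ) := ψ.contDiff
  have h2 : HasCompactSupport (deriv (ψ : ℝ → ℝ)) := ψ.hasCompactSupport.deriv
  have h3 : Continuous (deriv (ψ : ℝ → ℝ)) := h1.continuous_deriv le_rfl
  obtain ⟨K, hK⟩ := h2.exists_bound_of_continuous h3
  refine ⟨ψ, K, (norm_nonneg _).trans (hK 0), h1, fun t => ⟨ψ.nonneg, ψ.le_one⟩, ?_, ?_, ?_⟩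
  · intro t ht
    apply ψ.one_of_mem_closedBall
    rw [mem_closedBall_zero_iff, Real.norm_eq_abs]
    exact ht
  · intro t ht
    apply ψ.zero_of_le_dist
    rw [dist_zero_right, Real.norm_eq_abs]
    exact ht
  · intro t
    rw [← Real.norm_eq_abs]
    exact hK t

theorem deriv_zero {g : ℝ → ℝ} {t : ℝ} (h : ∀ s, 0 ≤ g s) (h0 : g t = 0) : deriv g t = 0 := by
  have : IsLocalMin g t := Eventually.of_forall fun s => by
    change g t ≤ g s
    rw [h0]; exact h s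
  exact this.deriv_eq_zero

theorem pf_ANN (hMUF : T_MUF) (hPID : T_PID) (hPRF : T_PRF) (hLA1 : T_LA1) : T_ANN := by
  intro Λ δ hΛ hδ
  obtain ⟨M, C, η, hM, hC, hη, hηC, hη0, hη1, hk1, hk2, hk3⟩ :=
    hPRF (δ / (2 * Λ + 1)) (by positivity)
  obtain ⟨ψ, K, hK, hψ, hψ01, hψ1, hψ0, hψK⟩ := exists_psi
  obtain ⟨δ', hδ'⟩ : ∃ δ' : ℝ, δ' = δ / (2 * Λ + 1) := ⟨_, rfl⟩
  rw [← hδ'] at hk1
  have hδ'0 : 0 ≤ δ' := by rw [hδ']; positivity
  have hδ'1 : δ' * (2 * Λ) ≤ δ := by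
    rw [hδ', div_mul_eq_mul_div, div_le_iff₀ (by positivity)]
    nlinarith
  have hM0 : 0 < M := by linarith
  refine ⟨M, 2 * C + C * M ^ 2 + C * K + M ^ 2, hM, by positivity, ?_⟩
  intro m G hG x hx hρ
  obtain ⟨ρ, hρd⟩ : ∃ ρ : ℝ, ρ = rho x := ⟨_, rfl⟩
  have hρ1 : ρ ≤ 1 := by
    rw [mem_ball_zero_iff] at hx
    have := rho_le_norm x
    linarith
  have hρ0 : 0 < ρ := by rw [hρd]; exact hρ
  rw [← hρd]
  obtain ⟨hf1, hf2⟩ := cf_facts (c := x 2) hρ0 hM hψ hη hη0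
  obtain ⟨f, hf⟩ : ∃ f : V → ℝ, f = cf ψ η (x 2) ρ := ⟨_, rfl⟩
  rw [← hf] at hf1 hf2
  have hfy : ∀ y, f y = ψ ((y 2 - x 2) / ρ) * η (rho y / ρ) := fun y => by rw [hf]; rfl
  -- where everything vanishes
  have hout : ∀ y : V, ¬ (ρ / M < rho y ∧ rho y ≤ 5 / 4 * ρ ∧ |y 2 - x 2| ≤ 3 / 16 * ρ) →
      f y = 0 ∧ kap f y = 0 ∧ fderiv ℝ f y (bv 2) = 0 := by
    intro y hy
    obtain ⟨-, g2, g3⟩ := hf2 y
    have hcase : η (rho y / ρ) = 0 ∨ ψ ((y 2 - x 2) / ρ) = 0 := by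
      by_contra hcon
      rw [not_or] at hcon
      apply hy
      refine ⟨?_, ?_, ?_⟩
      · by_contra h
        apply hcon.1
        apply hη0
        rw [div_le_div_iff₀ hρ0 hM0]
        rw [not_lt, le_div_iff₀ hM0] at h
        linarith
      · by_contra h
        apply hcon.1
        apply hη1
        rw [le_div_iff₀ hρ0]
        linarith
      · by_contra h
        apply hcon.2
        apply hψ0
        rw [abs_div, abs_of_pos hρ0, le_div_iff₀ hρ0]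
        linarith
    rcases hcase with h | h
    · rw [hfy, g2, g3, h, deriv_zero (fun s => (hηC s).1) h]
      simp
    · rw [hfy, g2, g3, h, deriv_zero (fun s => (hψ01 s).1) h]
      simp
  have hsupp : Function.support f ⊆ closedBall (0 : V) (7 / 8) := by
    intro y hy
    by_contra h
    apply hy
    refine (hout y fun hc => h ?_).1
    rw [hρd] at hc
    exact ball_subset_closedBall (geo1 hx hc.2.1 hc.2.2)
  have hcs : HasCompactSupport f :=
    HasCompactSupport.of_support_subset_isCompact (isCompact_closedBall 0 (7 / 8)) hsupp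
  have hts : tsupport f ⊆ ball 0 2 :=
    (closure_minimal hsupp isClosed_closedBall).trans (closedBall_subset_ball (by norm_num))
  have hP := hPID m G hG.memG hG.stat f hf1 hcs hts (fun y => (hf2 y).1)
  -- sets
  obtain ⟨-, -, -, hmu, -⟩ := hMUF m G hG.memG
  have hint : Integrable (fun y => nsq (G y)) (volume.restrict (ball (0 : V) 2)) :=
    (hmu (ball 0 2) measurableSet_ball Subset.rfl).1
  have hA : ball x (ρ / 8) ⊆ ball (0 : V) 2 := by
    intro y hy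
    rw [mem_ball_zero_iff] at hx ⊢
    rw [mem_ball_iff_norm] at hy
    have : ‖y‖ ≤ ‖y - x‖ + ‖x‖ := by
      have := norm_add_le (y - x) x
      rwa [sub_add_cancel] at this
    linarith
  have hB : ball (x - Pm 1 x) (2 * ρ) ⊆ ball (0 : V) 2 := by rw [hρd]; exact geo3 hx
  obtain ⟨W, hW⟩ : ∃ W : Set V, W = {y : V | y ∈ ball 0 (7 / 8) ∧ ρ / M < rho y} := ⟨_, rfl⟩
  have hWo : IsOpen W := by
    rw [hW]
    exact isOpen_ball.inter (isOpen_lt continuous_const cont_rho)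
  have hW2 : W ⊆ ball (0 : V) 2 := by
    rw [hW]
    intro y hy
    exact ball_subset_ball (by norm_num) hy.1
  rw [← hW]
  -- the integrand of the identity
  obtain ⟨Iy, hIy⟩ : ∃ Iy : V → ℝ, Iy = fun x => ((2 * f x - kap f x) * nzs (G x) +
      kap f x * ((rho x ^ 2)⁻¹ * ‖G x (Pm 1 x)‖ ^ 2) -
      kap f x * ((rho x ^ 2)⁻¹ * ‖G x (Jm 1 x)‖ ^ 2) -
      2 * fderiv ℝ f x (bv 2) * ⟪G x (bv 2), G x (Pm 1 x)⟫) := ⟨_, rfl⟩
  rw [← hIy] at hP
  -- bounds of the coefficients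
  have hb1 : ∀ y, 0 ≤ f y ∧ f y ≤ C := by
    intro y
    rw [hfy]
    obtain ⟨u1, u2⟩ := hψ01 ((y 2 - x 2) / ρ)
    obtain ⟨v1, v2⟩ := hηC (rho y / ρ)
    refine ⟨mul_nonneg u1 v1, ?_⟩
    calc _ ≤ 1 * C := mul_le_mul u2 v2 v1 zero_le_one
      _ = C := one_mul C
  have hb2 : ∀ y, -δ' ≤ kap f y ∧ kap f y ≤ C := by
    intro y
    rw [(hf2 y).2.1]
    obtain ⟨u1, u2⟩ := hψ01 ((y 2 - x 2) / ρ)
    have v1 := hk1 (rho y / ρ)
    have v2 := hk2 (rho y / ρ)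
    constructor <;> nlinarith
  have hb3 : ∀ y, |fderiv ℝ f y (bv 2)| ≤ C * K / ρ := by
    intro y
    rw [(hf2 y).2.2, abs_mul, abs_div, abs_of_pos hρ0]
    obtain ⟨v1, v2⟩ := hηC (rho y / ρ)
    rw [abs_of_nonneg v1]
    calc |deriv ψ ((y 2 - x 2) / ρ)| / ρ * η (rho y / ρ) ≤ K / ρ * C := by
          gcongr
          exact hψK _
      _ = C * K / ρ := by ring
  have hPle : ∀ y ∈ ball (0 : V) 2, ‖G y (Pm 1 y)‖ ^ 2 ≤ 4 * nsq (G y) := by
    intro y hy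
    rw [mem_ball_zero_iff] at hy
    have h1 := hLA1 1 m (G y) y
    have h2 : 0 ≤ rho y ^ 2 * nzs (G y) := mul_nonneg (sq_nonneg _) (nzs_nn _)
    have h3 : 0 ≤ ‖G y (Jm 1 y)‖ ^ 2 := by positivity
    have h4 : rho y ^ 2 ≤ 4 := by
      have h5 := rho_le_norm y
      have h6 := rho_nonneg y
      nlinarith
    have h7 := nsq_nn (G y)
    nlinarith
  -- integrability
  have hmf : Continuous f := hf1.continuous
  have hdf : Continuous (fderiv ℝ f) := hf1.continuous_fderiv one_ne_zero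
  have hmk : Continuous (fun y => kap f y) := by
    unfold kap
    exact (hdf.clm_apply (Pm 1).continuous).neg
  have hmz : Continuous (fun y => fderiv ℝ f y (bv 2)) := hdf.clm_apply continuous_const
  have hmr : AEStronglyMeasurable (fun y : V => (rho y ^ 2)⁻¹)
      (volume.restrict (ball (0 : V) 2)) :=
    (cont_rho.pow 2).measurable.inv.aestronglyMeasurable
  have hIint : Integrable Iy (volume.restrict (ball (0 : V) 2)) := by
    refine int_of_le hint Iy ((2 * C + (C + δ')) + (C + δ') + (C + δ') + 5 * (C * K / ρ)) ?_ ?_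
    · rw [hIy]
      have t1 := app_meas hG.memG.1 c_nzs
      have t2 := app_meas hG.memG.1 c_P
      have t3 := app_meas hG.memG.1 c_J
      have t4 := app_meas hG.memG.1 c_b
      exact (((((hmf.const_mul 2).sub hmk).aestronglyMeasurable.mul t1).add
        (hmk.aestronglyMeasurable.mul (hmr.mul t2))).sub
        (hmk.aestronglyMeasurable.mul (hmr.mul t3))).sub
        ((hmz.const_mul 2).aestronglyMeasurable.mul t4)
    · intro y hy
      rw [hIy]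
      simp only []
      obtain ⟨s1, s2⟩ := split_le hLA1 (G y) y
      have s3 := nzs_le (G y)
      have s4 := nzs_nn (G y)
      have s5 := hPle y hy
      have s6 := two_b_le (G y) y
      have s7 := nsq_nn (G y)
      have s8 : |kap f y| ≤ C + δ' := by
        obtain ⟨u1, u2⟩ := hb2 y
        rw [abs_le]
        constructor <;> linarith
      have s9 : |2 * f y - kap f y| ≤ 2 * C + (C + δ') := by
        obtain ⟨u1, u2⟩ := hb2 y
        obtain ⟨v1, v2⟩ := hb1 y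
        rw [abs_le]
        constructor <;> linarith
      have q1 : |(2 * f y - kap f y) * nzs (G y)| ≤ (2 * C + (C + δ')) * nsq (G y) := by
        rw [abs_mul, abs_of_nonneg s4]
        exact mul_le_mul s9 s3 s4 (by positivity)
      have q2 : |kap f y * ((rho y ^ 2)⁻¹ * ‖G y (Pm 1 y)‖ ^ 2)| ≤ (C + δ') * nsq (G y) := by
        rw [abs_mul, abs_of_nonneg (by positivity : 0 ≤ (rho y ^ 2)⁻¹ * ‖G y (Pm 1 y)‖ ^ 2)]
        exact mul_le_mul s8 s1 (by positivity) (by positivity)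
      have q3 : |kap f y * ((rho y ^ 2)⁻¹ * ‖G y (Jm 1 y)‖ ^ 2)| ≤ (C + δ') * nsq (G y) := by
        rw [abs_mul, abs_of_nonneg (by positivity : 0 ≤ (rho y ^ 2)⁻¹ * ‖G y (Jm 1 y)‖ ^ 2)]
        exact mul_le_mul s8 s2 (by positivity) (by positivity)
      have q4 : |2 * fderiv ℝ f y (bv 2) * ⟪G y (bv 2), G y (Pm 1 y)⟫| ≤
          5 * (C * K / ρ) * nsq (G y) := by
        rw [abs_mul, abs_mul, abs_of_pos (by norm_num : (0 : ℝ) < 2)]
        calc 2 * |fderiv ℝ f y (bv 2)| * |⟪G y (bv 2), G y (Pm 1 y)⟫| =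
              |fderiv ℝ f y (bv 2)| * (2 * |⟪G y (bv 2), G y (Pm 1 y)⟫|) := by ring
          _ ≤ (C * K / ρ) * (nzs (G y) + ‖G y (Pm 1 y)‖ ^ 2) :=
              mul_le_mul (hb3 y) s6 (by positivity) (by positivity)
          _ ≤ (C * K / ρ) * (5 * nsq (G y)) := by gcongr; linarith
          _ = _ := by ring
      have w1 := abs_sub ((2 * f y - kap f y) * nzs (G y) +
        kap f y * ((rho y ^ 2)⁻¹ * ‖G y (Pm 1 y)‖ ^ 2) -
        kap f y * ((rho y ^ 2)⁻¹ * ‖G y (Jm 1 y)‖ ^ 2))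
        (2 * fderiv ℝ f y (bv 2) * ⟪G y (bv 2), G y (Pm 1 y)⟫)
      have w2 := abs_sub ((2 * f y - kap f y) * nzs (G y) +
        kap f y * ((rho y ^ 2)⁻¹ * ‖G y (Pm 1 y)‖ ^ 2))
        (kap f y * ((rho y ^ 2)⁻¹ * ‖G y (Jm 1 y)‖ ^ 2))
      have w3 := abs_add_le ((2 * f y - kap f y) * nzs (G y))
        (kap f y * ((rho y ^ 2)⁻¹ * ‖G y (Pm 1 y)‖ ^ 2))
      linarith
  have hFint : Integrable (fun y => nzs (G y) + ‖G y (Pm 1 y)‖ ^ 2)
      (volume.restrict (ball (0 : V) 2)) := by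
    refine int_of_le hint _ 5 ((app_meas hG.memG.1 c_nzs).add (app_meas hG.memG.1 c_P)) ?_
    intro y hy
    have s3 := nzs_le (G y)
    have s4 := nzs_nn (G y)
    have s5 := hPle y hy
    rw [abs_of_nonneg (by positivity)]
    linarith
  -- the pointwise inequality
  have key : ∀ y ∈ ball (0 : V) 2, (ball x (ρ / 8)).indicator (fun y => nsq (G y)) y ≤
      (2 * C + C * M ^ 2 + C * K + M ^ 2) / ρ ^ 2 *
        W.indicator (fun y => nzs (G y) + ‖G y (Pm 1 y)‖ ^ 2) y +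
      δ' * (ball (x - Pm 1 x) (2 * ρ)).indicator (fun y => nsq (G y)) y - Iy y := by
    intro y _
    by_cases hreg : ρ / M < rho y ∧ rho y ≤ 5 / 4 * ρ ∧ |y 2 - x 2| ≤ 3 / 16 * ρ
    · have h1 : y ∈ W := by
        rw [hW]
        refine ⟨?_, hreg.1⟩
        rw [hρd] at hreg
        exact geo1 hx hreg.2.1 hreg.2.2
      have h2 : y ∈ ball (x - Pm 1 x) (2 * ρ) := by
        rw [hρd] at hreg ⊢
        exact geo2 hreg.2.1 hρ hreg.2.2
      rw [indicator_of_mem h1, indicator_of_mem h2]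
      have hr0 : 0 < rho y := lt_trans (by positivity) hreg.1
      have hns : nsq (G y) = nzs (G y) + (rho y ^ 2)⁻¹ * ‖G y (Pm 1 y)‖ ^ 2 +
          (rho y ^ 2)⁻¹ * ‖G y (Jm 1 y)‖ ^ 2 := by
        have h3 := hLA1 1 m (G y) y
        field_simp
        linarith
      have hmain := fun c hc => ptw (c := c) (f := f y) (k := kap f y)
        (fz := fderiv ℝ f y (bv 2)) (b := ⟪G y (bv 2), G y (Pm 1 y)⟫) hρ0 hρ1 hM hreg.1 hC hK
        (hb1 y).2 (hb2 y).1 (hb2 y).2 hc (hb3 y) (nzs_nn (G y))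
        (by positivity : 0 ≤ ‖G y (Pm 1 y)‖ ^ 2) (by positivity : 0 ≤ ‖G y (Jm 1 y)‖ ^ 2)
        (two_b_le (G y) y) hns hδ'0
      rw [hIy]
      by_cases hA' : y ∈ ball x (ρ / 8)
      · rw [indicator_of_mem hA']
        have hk : 1 ≤ kap f y := by
          have h5 : 7 / 8 * rho x ≤ rho y ∧ rho y ≤ 9 / 8 * rho x ∧
              |y 2 - x 2| ≤ 1 / 8 * rho x := geo4 (by rw [← hρd]; exact hA')
          rw [← hρd] at h5
          rw [(hf2 y).2.1, hψ1 _ (by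
            rw [abs_div, abs_of_pos hρ0, div_le_iff₀ hρ0]; exact h5.2.2), one_mul]
          have h6 := hk3 (rho y / ρ) ⟨by rw [le_div_iff₀ hρ0]; exact h5.1,
            by rw [div_le_iff₀ hρ0]; exact h5.2.1⟩
          linarith
        have h7 := hmain 1 (Or.inr ⟨rfl, hk⟩)
        rw [one_mul] at h7
        exact h7
      · rw [indicator_of_notMem hA']
        have h7 := hmain 0 (Or.inl rfl)
        rw [zero_mul] at h7
        exact h7
    · obtain ⟨g1, g2, g3⟩ := hout y hreg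
      have hA' : y ∉ ball x (ρ / 8) := by
        intro hA'
        apply hreg
        have h5 : 7 / 8 * rho x ≤ rho y ∧ rho y ≤ 9 / 8 * rho x ∧
            |y 2 - x 2| ≤ 1 / 8 * rho x := geo4 (by rw [← hρd]; exact hA')
        rw [← hρd] at h5
        refine ⟨?_, by linarith, by linarith⟩
        have h6 : ρ / M ≤ ρ / 2 := by gcongr
        linarith
      rw [indicator_of_notMem hA', hIy]
      simp only []
      rw [g1, g2, g3]
      have h1 : 0 ≤ W.indicator (fun y => nzs (G y) + ‖G y (Pm 1 y)‖ ^ 2) y := by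
        refine indicator_nonneg (fun z _ => ?_) y
        have := nzs_nn (G z)
        positivity
      have h2 : 0 ≤ (ball (x - Pm 1 x) (2 * ρ)).indicator (fun y => nsq (G y)) y :=
        indicator_nonneg (fun z _ => nsq_nn (G z)) y
      have h3 : 0 ≤ (2 * C + C * M ^ 2 + C * K + M ^ 2) / ρ ^ 2 *
          W.indicator (fun y => nzs (G y) + ‖G y (Pm 1 y)‖ ^ 2) y := by positivity
      have h4 : 0 ≤ δ' * (ball (x - Pm 1 x) (2 * ρ)).indicator (fun y => nsq (G y)) y := by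
        positivity
      simp only [mul_zero, sub_zero, zero_mul, add_zero]
      linarith
  -- integration
  have i1 : Integrable ((ball x (ρ / 8)).indicator (fun y => nsq (G y)))
      (volume.restrict (ball (0 : V) 2)) := hint.indicator measurableSet_ball
  have i2 : Integrable (W.indicator (fun y => nzs (G y) + ‖G y (Pm 1 y)‖ ^ 2))
      (volume.restrict (ball (0 : V) 2)) := hFint.indicator hWo.measurableSet
  have i3 : Integrable ((ball (x - Pm 1 x) (2 * ρ)).indicator (fun y => nsq (G y)))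
      (volume.restrict (ball (0 : V) 2)) := hint.indicator measurableSet_ball
  have j2 := i2.const_mul ((2 * C + C * M ^ 2 + C * K + M ^ 2) / ρ ^ 2)
  have j3 := i3.const_mul δ'
  have j1 : Integrable (fun y => (2 * C + C * M ^ 2 + C * K + M ^ 2) / ρ ^ 2 *
        W.indicator (fun y => nzs (G y) + ‖G y (Pm 1 y)‖ ^ 2) y +
      δ' * (ball (x - Pm 1 x) (2 * ρ)).indicator (fun y => nsq (G y)) y)
      (volume.restrict (ball (0 : V) 2)) := j2.add j3
  have j0 : Integrable (fun y => (2 * C + C * M ^ 2 + C * K + M ^ 2) / ρ ^ 2 *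
        W.indicator (fun y => nzs (G y) + ‖G y (Pm 1 y)‖ ^ 2) y +
      δ' * (ball (x - Pm 1 x) (2 * ρ)).indicator (fun y => nsq (G y)) y - Iy y)
      (volume.restrict (ball (0 : V) 2)) := j1.sub hIint
  have hineq := setIntegral_mono_on i1 j0 measurableSet_ball key
  have e1 : ∫ y in ball (0 : V) 2, (ball x (ρ / 8)).indicator (fun y => nsq (G y)) y =
      (mu G).real (ball x (ρ / 8)) := by
    rw [setIntegral_indicator measurableSet_ball, inter_eq_right.2 hA,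
      (hmu _ measurableSet_ball hA).2]
  have e3 : ∫ y in ball (0 : V) 2,
      (ball (x - Pm 1 x) (2 * ρ)).indicator (fun y => nsq (G y)) y =
      (mu G).real (ball (x - Pm 1 x) (2 * ρ)) := by
    rw [setIntegral_indicator measurableSet_ball, inter_eq_right.2 hB,
      (hmu _ measurableSet_ball hB).2]
  have e2 : ∫ y in ball (0 : V) 2, W.indicator (fun y => nzs (G y) + ‖G y (Pm 1 y)‖ ^ 2) y =
      ∫ y in W, (nzs (G y) + ‖G y (Pm 1 y)‖ ^ 2) := by
    rw [setIntegral_indicator hWo.measurableSet, inter_eq_right.2 hW2]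
  rw [e1, integral_sub j1 hIint, integral_add j2 j3, integral_const_mul, integral_const_mul,
    e2, e3, hP, sub_zero] at hineq
  have hden := hG.den (x - Pm 1 x) (2 * ρ) (by positivity) hB
  have hfin : δ' * (mu G).real (ball (x - Pm 1 x) (2 * ρ)) ≤ δ * ρ := by
    calc δ' * (mu G).real (ball (x - Pm 1 x) (2 * ρ)) ≤ δ' * (Λ * (2 * ρ)) := by gcongr
      _ = (δ' * (2 * Λ)) * ρ := by ring
      _ ≤ δ * ρ := by gcongr
  linarith

end

end Pool.Agent.H74.D3
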